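import Pool.Agent.Lib.MP_63f86b_al.Main

/-!
# Maximal subgroups of infinite finitely generated 2-groups
-/

universe u

namespace Pool.Agent.Results.MP_63f86b_al.MaximalNotFCNilpotent

open MP63f86b

/-- Let `G` be an infinite finitely generated 2-group all of whose proper subgroups are locally
finite, and suppose that every maximal subgroup of `G` satisfies the commensurator condition, or
the normalizer condition, or is FC-hypercentral.  Then no maximal subgroup of `G` is
FC-nilpotent. -/
theorem result (G : Type u) [Group G] (hfg : Group.FG G) (hinf : Infinite G)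
    (h2 : IsPGroup 2 G) (hLF : ∀ H : Subgroup G, H ≠ ⊤ → LocallyFinite H)
    (hC : ∀ M : Subgroup G, IsCoatom M →
      CommensuratorCondition M ∨ NormalizerCondition M ∨ FCHypercentral M)
    (M : Subgroup G) (hM : IsCoatom M) : ¬ FCNilpotent M := by
  have tor : ∀ g : G, ∃ k : ℕ, g ^ (2 ^ k) = 1 := h2
  refine main_theorem G hfg hinf tor hLF (fun M' hM' => ?_) M hM
  rcases hC M' hM' with h | h | h
  · exact h
  · exact commensuratorCondition_of_normalizerCondition h
  · exact h.commensuratorCondition

end Pool.Agent.Results.MP_63f86b_al.MaximalNotFCNilpotent
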