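import Pool.Agent.Lib.MP_63f86b_al.Main

/-!
# Infinite finitely generated 2-groups have proper subgroups that are not FC-nilpotent
-/

universe u

namespace Pool.Agent.Results.MP_63f86b_al.NotFCNilpotent

open MP63f86b

/-- Let `G` be an infinite finitely generated 2-group (no bound on the exponent is assumed).
Some proper subgroup of `G` is not FC-nilpotent; this proper subgroup has no nilpotent subgroup
of finite index and is not an FC-group. -/
theorem result (G : Type u) [Group G] (hfg : Group.FG G) (hinf : Infinite G)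
    (h2 : IsPGroup 2 G) :
    ∃ H : Subgroup G, H ≠ ⊤ ∧ ¬ FCNilpotent H ∧
      (¬ ∃ N : Subgroup H, N.FiniteIndex ∧ Group.IsNilpotent N) ∧
      ¬ ∀ x : H, (Subgroup.centralizer {x}).FiniteIndex := by
  have tor : ∀ g : G, ∃ k : ℕ, g ^ (2 ^ k) = 1 := h2
  have torH : ∀ (H : Subgroup G) (g : H), ∃ k : ℕ, g ^ (2 ^ k) = 1 := fun H g => by
    obtain ⟨k, hk⟩ := tor g
    exact ⟨k, by apply Subtype.ext; simpa using hk⟩
  by_contra hcon
  push Not at hcon
  have hall : ∀ H : Subgroup G, H ≠ ⊤ → FCNilpotent H := by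
    intro H hH
    by_contra hn
    have h3 := hcon H hH hn (fun N hN hNn => hn (fcNilpotent_of_virtuallyNilpotent ⟨N, hN, hNn⟩))
    exact hn (fcNilpotent_of_FC h3)
  obtain ⟨M, hM, _⟩ := exists_coatom hfg ⊥ (bot_ne_top_of_infinite G hinf)
  apply main_theorem G hfg hinf tor _ _ M hM (hall M hM.1)
  · intro H hH
    exact locallyFinite_of_FCHypercentral (torH H) (hall H hH).fcHypercentral
  · intro M' hM'
    exact (hall M' hM'.1).fcHypercentral.commensuratorCondition

end Pool.Agent.Results.MP_63f86b_al.NotFCNilpotent
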